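import Pool.Agent.R596.NwMain

/-!
# A narrow notion of forcing that is not uniformly narrow

There is a countable transitive model of ZF that contains a well-orderable notion of forcing which
is `ω`-narrow but not uniformly `ω`-narrow in the model. The definitions are in
`Pool.Agent.R596.NwDefs`.
-/

set_option autoImplicit false

namespace Pool.Agent.Results.MP_0f0156_lc.NarrowNotUniform

open Pool.Agent.W868 Pool.Agent.R596Nw

theorem result : ∃ (M : Set ZFSet.{0}) (P Le : ZFSet.{0}), M.Countable ∧ IsZF M ∧
    IsForcing M P Le ∧ WellOrderable M P ∧ Narrow M P Le ZFSet.omega ∧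
    ¬ Uniform M P Le ZFSet.omega :=
  Pool.Agent.R596.NW.main

end Pool.Agent.Results.MP_0f0156_lc.NarrowNotUniform
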